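import Pool.Agent.Helper893_SD.Main8
import Pool.Agent.Helper893_SD.GroupsHT

/-!
In a semi-deterministic automaton for the co-word problem of `H_n` (`n ≥ 3`) or `G_{n,r}` no guess
works for all the words of a suitable value `h ≠ 1`, even if the guess may depend on any given
initial part of the word and on any given finite-state information about the rest. The automaton is
arbitrary: silent moves are not restricted and no consistency of configurations is assumed.
-/

namespace Pool.Agent.Results.MP_159a57_lc.ValueGuess

open Pool.Agent.Helper893SD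

/-- Let `ev : α → G` be any monoid generating family, `μ` a morphism from the words over `α` to a
finite semigroup, and `M` a deterministic pushdown automaton with finitely many states and stack
letters. Then there are an element `h ≠ 1` and a word `y` of value `1` such that:

1. if `g' = g * h` or `g = g' * h`, there is `e` such that every configuration which accepts no
   word of value `g` fails to accept some word `w` of value `g'` with `μ w = e`;
2. if from a set `I` of initial configurations `M` together accepts exactly the words that are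
   nontrivial in `G`, then for every word `u` there is `e` such that for every guess `c ∈ I` there
   is a word `v` with `u ++ v` of value `h` and `μ v = e` for which `u ++ v` is not accepted
   from `c` (but is accepted from some other guess);
3. if an arbitrary initial part `u` is followed by a run of `M` from a configuration `c` which is
   consistent modulo `μ`, and no word `u ++ v` of value `1` is accepted in this way, then no word
   `u ++ v ++ y` with `u ++ v` of value `h` is accepted in this way;
4. with `I` as in 2, for every word `w` of value `h` the word `w ++ y` is accepted from some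
   configuration in `I`, but no configuration met while `w` is being read, on any accepting run
   on `w ++ y` from `I`, is consistent modulo `μ`. -/
def NoValueGuess (G : Type) [Group G] : Prop :=
  ∀ (α Q Γ F : Type) [Finite Q] [Finite Γ] [Semigroup F] [Finite F] (ev : α → G)
    (μ : List α → F), Submonoid.closure (Set.range ev) = ⊤ →
    (∀ u v, μ (u ++ v) = μ u * μ v) → ∀ M : DPDA α Q Γ,
    ∃ (h : G) (y : List α), h ≠ 1 ∧ val ev y = 1 ∧
      (∀ g g' : G, (g' = g * h ∨ g = g' * h) → ∃ e : F, ∀ c : Q × List Γ,
        (∀ w, val ev w = g → ¬ M.Accepts c w) →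
          ∃ w, val ev w = g' ∧ μ w = e ∧ ¬ M.Accepts c w) ∧
      (∀ (u : List α) (c : Q × List Γ), ConsistentMod M ev μ c →
        (∀ v, M.Accepts c v → val ev (u ++ v) ≠ 1) →
        ∀ v, val ev (u ++ v) = h → ¬ M.Accepts c (v ++ y)) ∧
      (∀ I : Set (Q × List Γ), (∀ w, val ev w ≠ 1 ↔ ∃ c ∈ I, M.Accepts c w) →
        (∀ u : List α, ∃ e : F, ∀ c ∈ I, ∃ v, val ev (u ++ v) = h ∧ μ v = e ∧
          ¬ M.Accepts c (u ++ v) ∧ ∃ c' ∈ I, M.Accepts c' (u ++ v)) ∧
        ∀ w, val ev w = h → (∃ c ∈ I, M.Accepts c (w ++ y)) ∧
          ∀ c ∈ I, ∀ u v c', w = u ++ v → M.Run c u c' → M.Accepts c' (v ++ y) →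
            ¬ ConsistentMod M ev μ c')

theorem noValueGuess_of_core {G : Type} [Group G] (ι : Core →* G)
    (hι : Function.Injective ι) : NoValueGuess G := by
  intro α Q Γ F _ _ _ _ ev μ hev hμ M
  have hev' : ∀ g : G, ∃ w, val ev w = g := by
    intro g
    have hg : g ∈ Submonoid.closure (Set.range ev) := by rw [hev]; trivial
    induction hg using Submonoid.closure_induction with
    | mem x hx =>
        obtain ⟨a, rfl⟩ := hx
        exact ⟨[a], by simp [val]⟩
    | one => exact ⟨[], rfl⟩
    | mul x y _ _ ihx ihy =>
        obtain ⟨u, rfl⟩ := ihx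
        obtain ⟨v, rfl⟩ := ihy
        exact ⟨u ++ v, val_append _ _ _⟩
  obtain ⟨h, hh, key⟩ := group_main8 ι hι ev μ hev' hμ M
  obtain ⟨y, hy, hcons⟩ := group_consistent8 ev μ hev' hμ M key
  refine ⟨h, y, hh, hy, ?_, hcons, ?_⟩
  · intro g g' hgg
    obtain ⟨e, _, he⟩ := key g g' hgg
    refine ⟨e, fun c hc => ?_⟩
    obtain ⟨w, _, h2, h3, h4⟩ := he c hc
    exact ⟨w, h2, h3, h4⟩
  · intro I hI
    constructor
    · intro u
      obtain ⟨e, he⟩ := group_guess8 ev μ M key u
      refine ⟨e, fun c hc => ?_⟩
      obtain ⟨v, h1, h2, h3⟩ := he c (fun w hw => (hI w).mpr ⟨c, hc, hw⟩)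
      refine ⟨v, h1, h2, h3, (hI _).mp ?_⟩
      rw [h1]
      exact hh
    · intro w hw
      refine ⟨(hI _).mp (by rw [val_append, hw, hy, mul_one]; exact hh), ?_⟩
      intro c hc u v c' hwuv hrun hacc hc'
      refine hcons u c' hc' ?_ v (by rw [← hwuv, hw]) hacc
      rintro v' ⟨c2, h1, h2⟩
      rw [hI]
      exact ⟨c, hc, c2, hrun.trans h1, h2⟩

theorem result :
    (∀ n : ℕ, 3 ≤ n → NoValueGuess (Houghton n)) ∧
    (∀ (n r : ℕ) [NeZero n], 2 ≤ n → 1 ≤ r → NoValueGuess (HigmanThompson n r)) := by
  refine ⟨fun n hn => noValueGuess_of_core (coreToHoughton hn) (coreToHoughton_injective hn), ?_⟩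
  intro n r _ hn hr
  have hzo : (⟨0, by omega⟩ : Fin n) ≠ ⟨1, by omega⟩ := by simp
  exact noValueGuess_of_core (coreToHT ⟨0, by omega⟩ hzo) (coreToHT_injective ⟨0, by omega⟩ hzo)

end Pool.Agent.Results.MP_159a57_lc.ValueGuess
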